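import Mathlib
import Pool.Agent.TH143.GE.Iff

/-!
The function fields of plane cubics.
-/

set_option autoImplicit false

namespace Pool.Agent.Q13.LE

open MvPolynomial FF

/-- the cubic -/
noncomputable def WC (a b : ℂ) : WeierstrassCurve.Affine ℂ := ⟨0, 0, 0, a, b⟩

/-- algebraic generation by two elements -/
theorem isFF_of {F : Type} [Field F] [Algebra ℂ F] {X Y : F} {a b : ℂ}
    (hXY : Y ^ 2 = X ^ 3 + algebraMap ℂ F a * X + algebraMap ℂ F b)
    (hind : ∀ A B : Polynomial ℂ, Polynomial.aeval X A + Polynomial.aeval X B * Y = 0 →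
      A = 0 ∧ B = 0)
    (hgen : ∀ f : F, ∃ r s : MvPolynomial (Fin 2) ℂ, f = aeval ![X, Y] r / aeval ![X, Y] s) :
    IsFF ℂ F := by
  classical
  have hX : Transcendental ℂ X := by
    rintro ⟨p, hp, h0⟩
    exact hp (hind p 0 (by rw [h0, map_zero, zero_mul, add_zero])).1
  refine ⟨?_, ?_⟩
  · rw [← IntermediateField.fg_top_iff]
    refine ⟨{X, Y}, ?_⟩
    rw [eq_top_iff]
    rintro f -
    have hm : ∀ P : MvPolynomial (Fin 2) ℂ, aeval ![X, Y] P ∈
        IntermediateField.adjoin ℂ (({X, Y} : Finset F) : Set F) := by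
      intro P
      induction P using MvPolynomial.induction_on with
      | C c =>
        rw [← algebraMap_eq, AlgHom.commutes]
        exact IntermediateField.algebraMap_mem _ c
      | add p q hp hq =>
        rw [map_add]
        exact add_mem hp hq
      | mul_X p i hp =>
        rw [map_mul, aeval_X]
        refine mul_mem hp (IntermediateField.subset_adjoin _ _ ?_)
        fin_cases i <;> simp
    obtain ⟨r, s, h⟩ := hgen f
    rw [h]
    exact div_mem (hm r) (hm s)
  · have hal : AlgebraicIndependent ℂ (fun _ : Unit => X) := by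
      rw [algebraicIndependent_unique_type_iff]
      exact hX
    have hbas : IsTranscendenceBasis ℂ (fun _ : Unit => X) := by
      rw [isTranscendenceBasis_iff_algebraicIndependent_isAlgebraic]
      refine ⟨hal, ⟨fun f => ?_⟩⟩
      set A := Algebra.adjoin ℂ (Set.range fun _ : Unit => X) with hA
      have hXA : X ∈ A := Algebra.subset_adjoin ⟨(), rfl⟩
      have hYi : IsIntegral A Y := by
        refine ⟨Polynomial.X ^ 2 - Polynomial.C ((⟨X, hXA⟩ : A) ^ 3 +
          algebraMap ℂ A a * ⟨X, hXA⟩ + algebraMap ℂ A b), ?_, ?_⟩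
        · exact Polynomial.monic_X_pow_sub_C _ two_ne_zero
        · rw [Polynomial.eval₂_sub, Polynomial.eval₂_pow, Polynomial.eval₂_X,
            Polynomial.eval₂_C, hXY]
          change _ - (X ^ 3 + algebraMap ℂ F a * X + algebraMap ℂ F b) = 0
          rw [sub_self]
      have hm : ∀ P : MvPolynomial (Fin 2) ℂ, IsIntegral A (aeval ![X, Y] P) := by
        intro P
        induction P using MvPolynomial.induction_on with
        | C c =>
          rw [← algebraMap_eq, AlgHom.commutes]
          exact isIntegral_algebraMap (R := A) (x := algebraMap ℂ A c)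
        | add p q hp hq =>
          rw [map_add]
          exact hp.add hq
        | mul_X p i hp =>
          rw [map_mul, aeval_X]
          refine hp.mul ?_
          fin_cases i
          · exact isIntegral_algebraMap (R := A) (x := ⟨X, hXA⟩)
          · exact hYi
      obtain ⟨r, s, h⟩ := hgen f
      rw [h, div_eq_mul_inv]
      exact (hm r).isAlgebraic.mul (hm s).isAlgebraic.inv
    have h1 := hbas.cardinalMk_eq_trdeg
    rw [← h1]
    simp

/-- **The function field of the cubic.** -/
theorem exists_ff (a b : ℂ) : ∃ (F : Type) (_ : Field F) (_ : Algebra ℂ F) (_ : IsFF ℂ F)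
    (X Y : F), Y ^ 2 = X ^ 3 + algebraMap ℂ F a * X + algebraMap ℂ F b ∧
    (∀ A B : Polynomial ℂ, Polynomial.aeval X A + Polynomial.aeval X B * Y = 0 → A = 0 ∧ B = 0) ∧
    (∀ f : F, ∃ r s : MvPolynomial (Fin 2) ℂ, f = aeval ![X, Y] r / aeval ![X, Y] s) := by
  classical
  let W := WC a b
  let F := W.FunctionField
  let Cr := W.CoordinateRing
  let i : Cr →+* F := algebraMap Cr F
  have hi : Function.Injective i := IsFractionRing.injective Cr F
  let mk : Polynomial (Polynomial ℂ) →+* Cr := WeierstrassCurve.Affine.CoordinateRing.mk W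
  let X0 : Cr := mk (Polynomial.C Polynomial.X)
  let Y0 : Cr := mk Polynomial.X
  have hC : ∀ c : ℂ, mk (Polynomial.C (Polynomial.C c)) = algebraMap ℂ Cr c := fun c => rfl
  have hp : ∀ A : Polynomial ℂ, mk (Polynomial.C A) = Polynomial.aeval X0 A := by
    intro A
    induction A using Polynomial.induction_on' with
    | add p q hp hq => rw [map_add, map_add, map_add, hp, hq]
    | monomial n c =>
      rw [← Polynomial.C_mul_X_pow_eq_monomial, map_mul, map_mul, map_pow, map_pow, hC, map_mul,
        map_pow, Polynomial.aeval_X, Polynomial.aeval_C]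
  have hXY0 : Y0 ^ 2 = X0 ^ 3 + algebraMap ℂ Cr a * X0 + algebraMap ℂ Cr b := by
    have h1 : mk (WeierstrassCurve.Affine.polynomial (WC a b)) = 0 := AdjoinRoot.mk_self
    have h3 : WeierstrassCurve.Affine.polynomial (WC a b) = Polynomial.X ^ 2 -
        Polynomial.C (Polynomial.X ^ 3 + Polynomial.C a * Polynomial.X + Polynomial.C b) := by
      unfold WeierstrassCurve.Affine.polynomial WC
      simp
    have h4 := (congrArg mk h3).symm.trans h1
    rw [map_sub, map_pow, sub_eq_zero, hp, map_add, map_add, map_pow, map_mul,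
      Polynomial.aeval_X, Polynomial.aeval_C, Polynomial.aeval_C] at h4
    exact h4
  have hbas : ∀ (p q : Polynomial ℂ), p • (1 : Cr) + q • mk Polynomial.X =
      Polynomial.aeval X0 p + Polynomial.aeval X0 q * Y0 := by
    intro p q
    rw [WeierstrassCurve.Affine.CoordinateRing.smul, WeierstrassCurve.Affine.CoordinateRing.smul,
      mul_one]
    change mk (Polynomial.C p) + mk (Polynomial.C q) * Y0 = _
    rw [hp, hp]
  have hia : ∀ c : ℂ, i (algebraMap ℂ Cr c) = algebraMap ℂ F c := fun c =>
    (IsScalarTower.algebraMap_apply ℂ Cr F c).symm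
  have hip : ∀ p : Polynomial ℂ, i (Polynomial.aeval X0 p) = Polynomial.aeval (i X0) p := by
    intro p
    exact (Polynomial.aeval_algebraMap_apply F X0 p).symm
  have hXY : (i Y0) ^ 2 = (i X0) ^ 3 + algebraMap ℂ F a * i X0 + algebraMap ℂ F b := by
    rw [← map_pow, hXY0, map_add, map_add, map_mul, map_pow, hia, hia]
  have hind : ∀ A B : Polynomial ℂ, Polynomial.aeval (i X0) A + Polynomial.aeval (i X0) B * i Y0 = 0 →
      A = 0 ∧ B = 0 := by
    intro A B h
    rw [← hip, ← hip, ← map_mul, ← map_add, ← hbas] at h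
    exact WeierstrassCurve.Affine.CoordinateRing.smul_basis_eq_zero (hi (h.trans (map_zero i).symm))
  have hgen : ∀ f : F, ∃ r s : MvPolynomial (Fin 2) ℂ,
      f = aeval ![i X0, i Y0] r / aeval ![i X0, i Y0] s := by
    intro f
    have hc : ∀ c : Cr, ∃ r : MvPolynomial (Fin 2) ℂ, i c = aeval ![i X0, i Y0] r := by
      intro c
      obtain ⟨p, q, hpq⟩ := WeierstrassCurve.Affine.CoordinateRing.exists_smul_basis_eq c
      have h1 : ∀ p : Polynomial ℂ, aeval ![i X0, i Y0] (Polynomial.aeval (X 0 :
          MvPolynomial (Fin 2) ℂ) p) = Polynomial.aeval (i X0) p := by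
        intro p
        rw [← Polynomial.aeval_algHom_apply, aeval_X]
        rfl
      refine ⟨Polynomial.aeval (X 0) p + Polynomial.aeval (X 0) q * X 1, ?_⟩
      have h2 : c = Polynomial.aeval X0 p + Polynomial.aeval X0 q * Y0 := hpq.symm.trans (hbas p q)
      rw [h2, map_add, map_mul, hip, hip, map_add, map_mul, h1, h1, aeval_X]
      rfl
    obtain ⟨c, d, -, rfl⟩ := IsFractionRing.div_surjective (A := Cr) f
    obtain ⟨r, hr⟩ := hc c
    obtain ⟨s, hs⟩ := hc d
    exact ⟨r, s, by rw [← hr, ← hs]⟩
  exact ⟨F, inferInstance, inferInstance, isFF_of hXY hind hgen, i X0, i Y0, hXY, hind, hgen⟩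

end Pool.Agent.Q13.LE
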