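import Pool.Agent.Q13.LE.Num
import Pool.Agent.Q13.DS.Poly
import Pool.Agent.Y719.LC.Ent
import Pool.Agent.Y377.IL.AllA

/-!
Lang's conjecture for the curves of genus at most one: the equivalences.
-/

set_option autoImplicit false

namespace Pool.Agent.Q13.LE

open Filter MvPolynomial
open scoped LinearAlgebra.Projectivization
open Pool.Agent.TH143.DE Pool.Agent.TH143.HE Pool.Agent.TH143.TW Pool.Agent.TH143.GE
  Pool.Agent.Y719.LC
open Pool.Agent.TH143.EL (TrOne HolMap InV Rep rep_rep inV_iff TorusMapsIn Ell trOne_ell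
  ratCurves_of_torus)
open Pool.Agent.Y377.IL (IterLin iter_main)

variable {K : Type} [Field K] {N : ℕ}

/-- The point `p` of the complex projective space lies in the variety given by the forms in
`I`. -/
def InX (σ : K →+* ℂ) (I : Ideal (MvPolynomial (Fin (N + 1)) K)) (p : ℙ ℂ (Fin (N + 1) → ℂ)) :
    Prop :=
  IsPtP σ I p.rep

/-- All nonconstant entire curves in `X_σ` which satisfy the condition `C` lie in `Z`. -/
def CurvesIn (σ : K →+* ℂ) (I I' : Ideal (MvPolynomial (Fin (N + 1)) K))
    (C : (ℂ → ℙ ℂ (Fin (N + 1) → ℂ)) → Prop) : Prop :=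
  ∀ f : ℂ → ℙ ℂ (Fin (N + 1) → ℂ), HolMap f → C f → (∀ z, InX σ I (f z)) →
    (∃ z w, f z ≠ f w) → ∀ z, InX σ I' (f z)

/-- The entire curve `f` is given by iterated linear differential equations over a differential
ring `B` of meromorphic functions of transcendence degree at most one: it has homogeneous
coordinates in the smallest set of meromorphic functions on the plane which contains the quotients
of the functions in `B` and is closed under sums, products and meromorphic solutions of linear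
systems `y' = A y` with coefficients `A` in the set. -/
def IteratedCurve (f : ℂ → ℙ ℂ (Fin (N + 1) → ℂ)) : Prop :=
  ∃ B : Subalgebra ℂ (ℂ → ℂ), TrOne B ∧ ∃ h : Fin (N + 1) → ℂ → ℂ, (∀ j, IterLin B (h j)) ∧
    ∀ᶠ z in codiscrete ℂ, Rep (f z) fun j => h j z

/-- doubly periodic entire curves: the maps from one-dimensional complex tori -/
def DoublyPeriodic (f : ℂ → ℙ ℂ (Fin (N + 1) → ℂ)) : Prop :=
  ∃ ω₁ ω₂ : ℂ, LinearIndependent ℝ ![ω₁, ω₂] ∧ (∀ z, f (z + ω₁) = f z) ∧
    ∀ z, f (z + ω₂) = f z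

/-- The `x m` are homogeneous coordinates of points of `X(L)` which are not in `Z`. -/
structure PointsOff (I I' : Ideal (MvPolynomial (Fin (N + 1)) K)) {L : Type} [Field L]
    [Algebra K L] (x : ℕ → Fin (N + 1) → L) : Prop where
  ne : ∀ m, x m ≠ 0
  mem : ∀ m, IsPtP (algebraMap K L) I (x m)
  out : ∀ m, ¬ IsPtP (algebraMap K L) I' (x m)

/-- eventually periodic sequences of points -/
def EventuallyPeriodic {L : Type} [Field L] (x : ℕ → Fin (N + 1) → L) : Prop :=
  ∃ n m0 : ℕ, 0 < n ∧ ∀ m, m0 ≤ m → ∀ i j, x (m + n) i * x m j = x (m + n) j * x m i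

/-- there are only finitely many different points -/
def FinitelyMany {L : Type} [Field L] (x : ℕ → Fin (N + 1) → L) : Prop :=
  ∃ S : Set (Fin (N + 1) → L), S.Finite ∧ (∀ v ∈ S, v ≠ 0) ∧
    ∀ m, ∃ v ∈ S, ∀ i j, x m i * v j = x m j * v i

/-- For all fields `L` between `K` and `ℂ` (with an embedding `τ` of `L` extending `σ`), all
sequences of points of `X(L)` outside of `Z`, given by iterated linear recurrences over a finitely
generated field of coefficients of transcendence degree at most one, are eventually periodic. -/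
def TowersPeriodic (σ : K →+* ℂ) (I I' : Ideal (MvPolynomial (Fin (N + 1)) K)) : Prop :=
  ∀ B : Subalgebra ℂ (ℕ → ℂ), Tow1 B → ∀ (L : Type) [Field L] [Algebra K L] (τ : L →+* ℂ),
    τ.comp (algebraMap K L) = σ → ∀ x : ℕ → Fin (N + 1) → L, PointsOff I I' x →
      (∀ j, LinRec B fun m => τ (x m j)) → EventuallyPeriodic x

/-- For all number fields `L ⊇ K`, all sequences of points of `X(L)` outside of `Z`, with
homogeneous coordinates in a finitely generated field of coefficients of transcendence degree at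
most one, consist of finitely many points. -/
def SequencesFinite (σ : K →+* ℂ) (I I' : Ideal (MvPolynomial (Fin (N + 1)) K)) : Prop :=
  ∀ B : Subalgebra ℂ (ℕ → ℂ), CoefField B → FinGen B → TrLe B 1 →
    ∀ (L : Type) [Field L] [NumberField L] [Algebra K L] (τ : L →+* ℂ),
      τ.comp (algebraMap K L) = σ → ∀ x : ℕ → Fin (N + 1) → L, PointsOff I I' x →
        (∀ j, (fun m => τ (x m j)) ∈ B) → FinitelyMany x

/-- The maps from the projective line and from elliptic curves over `A` to `X` which are not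
constant have their image in `Z`. -/
def LowGenusIn {A : Type} [Field A] (φ : K →+* A) (I I' : Ideal (MvPolynomial (Fin (N + 1)) K)) :
    Prop :=
  AlgIn φ I I'

theorem inV_inX {σ : K →+* ℂ} {I : Ideal (MvPolynomial (Fin (N + 1)) K)}
    {p : ℙ ℂ (Fin (N + 1) → ℂ)} : InV (cI σ I) p ↔ InX σ I p := inV_cI (rep_rep p)

theorem pt_iff {σ : K →+* ℂ} {L : Type} [Field L] [Algebra K L] {τ : L →+* ℂ}
    (hτ : τ.comp (algebraMap K L) = σ) (J : Ideal (MvPolynomial (Fin (N + 1)) K))
    (y : Fin (N + 1) → L) : IsPtP σ J (fun j => τ (y j)) ↔ IsPtP (algebraMap K L) J y := by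
  have h1 : ∀ G : MvPolynomial (Fin (N + 1)) K, eval₂ σ (fun j => τ (y j)) G =
      τ (eval₂ (algebraMap K L) y G) := by
    intro G
    rw [← hτ]
    exact (eval₂_comp_left τ (algebraMap K L) y G).symm
  unfold IsPtP
  simp only [h1, map_eq_zero]

theorem exists_ext [NumberField K] (σ : K →+* ℂ) (L : Type) [Field L] [NumberField L]
    [Algebra K L] : ∃ τ : L →+* ℂ, τ.comp (algebraMap K L) = σ := by
  let _ : Algebra K ℂ := σ.toAlgebra
  have halg : Algebra.IsAlgebraic K L := Algebra.IsAlgebraic.tower_top (K := ℚ) K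
  let e : L →ₐ[K] ℂ := IsAlgClosed.lift
  refine ⟨e, ?_⟩
  ext r
  exact e.commutes _

theorem finite_of_periodic {L : Type} [Field L] {x : ℕ → Fin (N + 1) → L} (hne : ∀ m, x m ≠ 0)
    (h : EventuallyPeriodic x) : FinitelyMany x := by
  classical
  obtain ⟨n, m0, hn, h⟩ := h
  refine ⟨x '' (Set.Iio (m0 + n)), (Set.finite_lt_nat (m0 + n)).image x, ?_, fun m => ?_⟩
  · rintro _ ⟨m, _, rfl⟩
    exact hne m
  · induction m using Nat.strong_induction_on with
    | _ m ih =>
      rcases Nat.lt_or_ge m (m0 + n) with h1 | h1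
      · exact ⟨x m, ⟨m, h1, rfl⟩, fun i j => mul_comm _ _⟩
      · obtain ⟨v, hv, h2⟩ := ih (m - n) (by omega)
        refine ⟨v, hv, fun i j => ?_⟩
        have h3 := h (m - n) (by omega)
        have h4 : m - n + n = m := by omega
        rw [h4] at h3
        obtain ⟨a, ha⟩ := Function.ne_iff.1 (hne (m - n))
        have ha' : x (m - n) a ≠ 0 := ha
        have h5 : x (m - n) a * (x m i * v j - x m j * v i) = 0 := by
          linear_combination (h3 i a) * v j - (h3 j a) * v i + x m a * h2 i j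
        exact sub_eq_zero.1 ((mul_eq_zero.1 h5).resolve_left ha')

theorem not_finitely {L : Type} [Field L] {x : ℕ → Fin (N + 1) → L}
    (hinf : ∀ v : Fin (N + 1) → L, v ≠ 0 → {m | ∀ i j, x m i * v j = x m j * v i}.Finite) :
    ¬ FinitelyMany x := by
  rintro ⟨S, hS, hS0, h⟩
  have h1 : (⋃ v ∈ S, {m | ∀ i j, x m i * v j = x m j * v i}).Finite :=
    hS.biUnion fun v hv => hinf v (hS0 v hv)
  refine Set.infinite_univ (h1.subset fun m _ => ?_)
  obtain ⟨v, hv, h3⟩ := h m
  exact Set.mem_biUnion hv h3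

/-- members of the field of coefficients satisfy linear recurrences over it -/
theorem linRec_mem {B : Subalgebra ℂ (ℕ → ℂ)} (hB : CoefField B) {f : ℕ → ℂ} (hf : f ∈ B) :
    LinRec B f := by
  by_cases h0 : ∀ᶠ m in atTop, f m = 0
  · refine ⟨0, fun _ => 1, fun _ => B.one_mem, ⟨0, le_rfl, ?_⟩, ?_⟩
    · intro h
      obtain ⟨m, hm⟩ := h.exists
      exact one_ne_zero hm
    · filter_upwards [h0] with m hm
      simp [hm]
  · refine ⟨1, fun k => if k = 0 then -(fun m => f (m + 1)) else f, fun k => ?_,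
      ⟨1, le_rfl, ?_⟩, ?_⟩
    · by_cases hk : k = 0
      · simp only [if_pos hk]
        exact B.neg_mem (hB.shift' hf 1)
      · simp only [if_neg hk]
        exact hf
    · simpa using h0
    · refine Eventually.of_forall fun m => ?_
      rw [Finset.sum_range_succ, Finset.sum_range_one]
      simp
      ring

theorem low_of_nf [NumberField K] (σ : K →+* ℂ) {I I' : Ideal (MvPolynomial (Fin (N + 1)) K)}
    (h : ∀ (L : Type) [Field L] [NumberField L] [Algebra K L],
      LowGenusIn (algebraMap K L) I I') : LowGenusIn σ I I' := by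
  let _ : Algebra K ℂ := σ.toAlgebra
  constructor
  · intro p hp
    have hp1 : RCur ((algebraMap K ℂ).comp (RingHom.id K)) I I' p := hp
    obtain ⟨L, _, _, _, p', hp'⟩ := RCur.spec (k := K) (E := ℂ) (RingHom.id K) hp1
    have hchar : CharZero L := charZero_of_injective_algebraMap (algebraMap K L).injective
    have hfin : FiniteDimensional ℚ L := FiniteDimensional.trans ℚ K L
    have hnf : NumberField L := ⟨⟩
    rw [RingHom.comp_id] at hp'
    exact (h L).1 p' hp'
  · intro a b P Q hE
    have hE1 : ECur ((algebraMap K ℂ).comp (RingHom.id K)) I I' a b P Q := hE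
    obtain ⟨L, _, _, _, a', b', P', Q', hE'⟩ := ECur.spec (k := K) (E := ℂ) (RingHom.id K) hE1
    have hchar : CharZero L := charZero_of_injective_algebraMap (algebraMap K L).injective
    have hfin : FiniteDimensional ℚ L := FiniteDimensional.trans ℚ K L
    have hnf : NumberField L := ⟨⟩
    rw [RingHom.comp_id] at hE'
    exact (h L).2 a' b' P' Q' hE'

theorem nf_of_seq [NumberField K] (σ : K →+* ℂ) {I I' : Ideal (MvPolynomial (Fin (N + 1)) K)}
    (h : SequencesFinite σ I I') (L : Type) [Field L] [NumberField L] [Algebra K L] :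
    LowGenusIn (algebraMap K L) I I' := by
  constructor
  · intro p hp
    obtain ⟨P, h1, h2, h3, h4⟩ := Pool.Agent.Q13.DS.exists_poly_rat (algebraMap K L) hp
    obtain ⟨τ, hτ⟩ := exists_ext σ L
    refine not_finitely h4 (h RB RB_field (ratB_fg _) (ratB_tr _) L τ hτ _ ⟨h1, h2, h3⟩
      fun j => ?_)
    have h5 := poly_mem_RB ((P j).map τ)
    have h6 : (fun m : ℕ => ((P j).map τ).eval (m : ℂ)) = fun m : ℕ => τ ((P j).eval (m : L)) := by
      funext m
      rw [← Polynomial.eval_map_apply, map_natCast]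
    rwa [h6] at h5
  · intro a b P Q hE
    obtain ⟨A, _, _, _, hA⟩ := bad_of_ecur (algebraMap K L) hE
    let _ : Algebra K A := ((algebraMap L A).comp (algebraMap K L)).toAlgebra
    obtain ⟨τ, hτ⟩ := exists_ext σ A
    obtain ⟨B, hB, hfg, htr, z, h1, h2, h3, h4, h5⟩ := hA τ
    exact not_finitely h5 (h B hB hfg htr A τ hτ z ⟨h1, h3, h4⟩ h2)

theorem main [NumberField K] (σ : K →+* ℂ) (I I' : Ideal (MvPolynomial (Fin (N + 1)) K)) :
    List.TFAE [CurvesIn σ I I' IteratedCurve, CurvesIn σ I I' DoublyPeriodic, LowGenusIn σ I I',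
      ∀ (L : Type) [Field L] [NumberField L] [Algebra K L], LowGenusIn (algebraMap K L) I I',
      TowersPeriodic σ I I', SequencesFinite σ I I'] := by
  have hring : ∀ {B : Subalgebra ℂ (ℂ → ℂ)} {h : ℂ → ℂ}, h ∈ B → IterLin B h := by
    intro B h hh
    have h3 := IterLin.quot hh B.one_mem
    have h4 : (fun z => h z / (1 : ℂ → ℂ) z) = fun z => h z := by
      funext z
      exact div_one _
    rwa [h4] at h3
  have hT : CurvesIn σ I I' DoublyPeriodic → TorusMapsIn (cI σ I) (cI σ I') := by
    intro h ω₁ ω₂ hind f hf h1 h2 hI hnc z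
    exact inV_inX.2 (h f hf ⟨ω₁, ω₂, hind, h1, h2⟩ (fun z => inV_inX.1 (hI z)) hnc z)
  tfae_have 1 → 2 := by
    rintro h f hf ⟨ω₁, ω₂, hind, h1, h2⟩ hI hnc
    obtain ⟨g, hg, hr⟩ := Pool.Agent.TH600.LK.torus_coords_ell hf h1 h2
    exact h f hf ⟨Ell ω₁ ω₂, trOne_ell hind, fun j z => g z j, fun j => hring (hg j), hr⟩ hI hnc
  tfae_have 2 → 1 := by
    rintro h f hf ⟨B, hB, g, hg, hr⟩ hI hnc z
    exact inV_inX.1 (iter_main (hT h) hB hf hg hr (fun z => inV_inX.2 (hI z)) hnc z)
  tfae_have 2 → 3 := by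
    intro h
    refine ⟨ratCurvesIn_iff.1 (rat_cI.1 (ratCurves_of_torus (hT h))), ell_of_ent ?_⟩
    rintro f hf ⟨B, hB, g, hg, hr⟩ hI hnc z
    exact iter_main (hT h) hB hf (fun j => hring (hg j)) hr hI hnc z
  tfae_have 3 → 2 := by
    rintro ⟨hR, hE⟩ f hf ⟨ω₁, ω₂, hind, h1, h2⟩ hI hnc z
    exact inV_inX.1 (torus_of_alg (ratCurvesIn_iff.2 hR) hE ω₁ ω₂ hind f hf h1 h2
      (fun z => inV_inX.2 (hI z)) hnc z)
  tfae_have 4 → 3 := low_of_nf σ
  tfae_have 3 → 5 := by
    intro h B hB L _ _ τ hτ x hx hrec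
    obtain ⟨n, m0, hn, hper⟩ := tow1_good (ratCurvesIn_iff.2 h.1) (genusOne_of_ell h.2) hB
      (fun m j => τ (x m j)) (Eventually.of_forall fun m h0 => hx.ne m (funext fun j => by
        have h1 := congrFun h0 j
        simpa using h1)) hrec
      (Eventually.of_forall fun m => (pt_iff hτ I (x m)).2 (hx.mem m))
      (Eventually.of_forall fun m hcon => hx.out m ((pt_iff hτ I' (x m)).1 hcon))
    refine ⟨n, m0, hn, fun m hm i j => ?_⟩
    have h2 := hper m hm i j
    simp only [← map_mul] at h2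
    exact τ.injective h2
  tfae_have 5 → 6 := by
    intro h B hB hfg htr L _ _ _ τ hτ x hx hmem
    exact finite_of_periodic hx.ne (h B (Tow1.base hB hfg htr) L τ hτ x hx
      fun j => linRec_mem hB (hmem j))
  tfae_have 6 → 4 := fun h L _ _ _ => nf_of_seq σ h L
  tfae_finish

end Pool.Agent.Q13.LE
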