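import Mathlib
import Pool.Agent.Y719.LC.Cub

/-!
Points of infinite order on elliptic curves over number fields: orbits of the duplication which
converge to the origin in the 2-adic topology.
-/

set_option autoImplicit false

namespace Pool.Agent.Q13.LE

open Polynomial

/-! ### The duplication in an ultrametric field -/

section

variable {M : Type} [NormedField M] [IsUltrametricDist M]

theorem norm_add_of_lt {u v : M} (h : ‖v‖ < ‖u‖) : ‖u + v‖ = ‖u‖ := by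
  rw [IsUltrametricDist.norm_add_eq_max_of_norm_ne_norm (ne_of_gt h), max_eq_left h.le]

theorem norm_nat_le (n : ℕ) : ‖(n : M)‖ ≤ 1 := IsUltrametricDist.norm_natCast_le_one M n

theorem norm_cub {a b x : M} (h1 : 1 < ‖x‖) (ha : ‖a‖ < ‖x‖) (hb : ‖b‖ < ‖x‖) :
    ‖x ^ 3 + a * x + b‖ = ‖x‖ ^ 3 := by
  have hx : (0 : ℝ) < ‖x‖ := by linarith
  have h2 : ‖a * x‖ < ‖x ^ 3‖ := by
    rw [norm_mul, norm_pow]
    nlinarith [mul_lt_mul_of_pos_right ha hx, mul_lt_mul_of_pos_right h1 (mul_pos hx hx)]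
  have h3 : ‖x ^ 3 + a * x‖ = ‖x‖ ^ 3 := by rw [norm_add_of_lt h2, norm_pow]
  have h4 : ‖b‖ < ‖x ^ 3 + a * x‖ := by
    rw [h3]
    nlinarith [mul_lt_mul_of_pos_right h1 hx, mul_lt_mul_of_pos_right h1 (mul_pos hx hx)]
  rw [norm_add_of_lt h4, h3]

theorem norm_num {a b x : M} (h1 : 1 < ‖x‖) (ha : ‖a‖ < ‖x‖) (hb : ‖b‖ < ‖x‖) :
    ‖x ^ 4 - 2 * a * x ^ 2 - 8 * b * x + a ^ 2‖ = ‖x‖ ^ 4 := by
  have hx : (0 : ℝ) < ‖x‖ := by linarith
  have e : x ^ 4 - 2 * a * x ^ 2 - 8 * b * x + a ^ 2 =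
      x ^ 4 + (-(2 * a * x ^ 2)) + (-(8 * b * x)) + a ^ 2 := by ring
  have h2n : ‖(2 : M)‖ ≤ 1 := by exact_mod_cast norm_nat_le (M := M) 2
  have h8n : ‖(8 : M)‖ ≤ 1 := by exact_mod_cast norm_nat_le (M := M) 8
  have hx2 : ‖x‖ < ‖x‖ ^ 2 := by nlinarith
  have hx3 : ‖x‖ ^ 2 < ‖x‖ ^ 3 := by nlinarith [mul_pos hx hx]
  have hx4 : ‖x‖ ^ 3 < ‖x‖ ^ 4 := by nlinarith [mul_pos hx (mul_pos hx hx)]
  have c2 : ‖-(2 * a * x ^ 2)‖ < ‖x ^ 4‖ := by
    rw [norm_neg, norm_mul, norm_mul, norm_pow, norm_pow]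
    have t1 : ‖(2 : M)‖ * ‖a‖ ≤ ‖a‖ := by nlinarith [norm_nonneg a]
    have t2 : ‖(2 : M)‖ * ‖a‖ * ‖x‖ ^ 2 ≤ ‖a‖ * ‖x‖ ^ 2 :=
      mul_le_mul_of_nonneg_right t1 (by positivity)
    have t3 : ‖a‖ * ‖x‖ ^ 2 < ‖x‖ * ‖x‖ ^ 2 := mul_lt_mul_of_pos_right ha (by positivity)
    nlinarith
  have e2 : ‖x ^ 4 + (-(2 * a * x ^ 2))‖ = ‖x‖ ^ 4 := by rw [norm_add_of_lt c2, norm_pow]
  have c3 : ‖-(8 * b * x)‖ < ‖x ^ 4 + (-(2 * a * x ^ 2))‖ := by
    rw [e2, norm_neg, norm_mul, norm_mul]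
    have t1 : ‖(8 : M)‖ * ‖b‖ ≤ ‖b‖ := by nlinarith [norm_nonneg b]
    have t2 : ‖(8 : M)‖ * ‖b‖ * ‖x‖ ≤ ‖b‖ * ‖x‖ := mul_le_mul_of_nonneg_right t1 hx.le
    have t3 : ‖b‖ * ‖x‖ < ‖x‖ * ‖x‖ := mul_lt_mul_of_pos_right hb hx
    nlinarith
  have e3 : ‖x ^ 4 + (-(2 * a * x ^ 2)) + (-(8 * b * x))‖ = ‖x‖ ^ 4 := by
    rw [norm_add_of_lt c3, e2]
  have c4 : ‖a ^ 2‖ < ‖x ^ 4 + (-(2 * a * x ^ 2)) + (-(8 * b * x))‖ := by
    rw [e3, norm_pow]
    have t3 : ‖a‖ ^ 2 < ‖x‖ ^ 2 := by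
      nlinarith [norm_nonneg a]
    linarith
  rw [e, norm_add_of_lt c4, e3]

/-- the duplication increases the norm -/
theorem norm_dup (h2 : ‖(2 : M)‖ < 1) (h20 : (2 : M) ≠ 0) {a b x : M} (h1 : 1 < ‖x‖)
    (ha : ‖a‖ < ‖x‖) (hb : ‖b‖ < ‖x‖) :
    ‖x‖ < ‖(x ^ 4 - 2 * a * x ^ 2 - 8 * b * x + a ^ 2) / (4 * (x ^ 3 + a * x + b))‖ := by
  have hx : (0 : ℝ) < ‖x‖ := by linarith
  have h4 : (4 : M) = 2 * 2 := by norm_num
  have h2p : 0 < ‖(2 : M)‖ := norm_pos_iff.2 h20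
  have h4p : 0 < ‖(4 : M)‖ := by
    rw [h4, norm_mul]
    positivity
  have h4l : ‖(4 : M)‖ < 1 := by
    rw [h4, norm_mul]
    nlinarith
  rw [norm_div, norm_mul, norm_num h1 ha hb, norm_cub h1 ha hb, lt_div_iff₀ (by positivity)]
  have h3 : ‖(4 : M)‖ * ‖x‖ ^ 4 < 1 * ‖x‖ ^ 4 := mul_lt_mul_of_pos_right h4l (by positivity)
  nlinarith

end

/-! ### Orbits over number fields -/

/-- embedding in a 2-adic field -/
theorem exists_two (L : Type) [Field L] [NumberField L] :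
    ∃ (M : Type) (_ : NormedField M) (_ : IsUltrametricDist M) (_ : L →+* M), ‖(2 : M)‖ < 1 ∧
      (2 : M) ≠ 0 := by
  let _ : Fact (Nat.Prime 2) := ⟨Nat.prime_two⟩
  have e : L →ₐ[ℚ] PadicAlgCl 2 := IsAlgClosed.lift
  refine ⟨PadicAlgCl 2, inferInstance, inferInstance, e.toRingHom, ?_, ?_⟩
  · have h1 : (2 : PadicAlgCl 2) = ((2 : ℚ_[2]) : PadicAlgCl 2) :=
      (map_ofNat (algebraMap ℚ_[2] (PadicAlgCl 2)) 2).symm
    rw [h1, PadicAlgCl.norm_extends]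
    have h3 := Padic.norm_p (p := 2)
    push_cast at h3
    rw [h3]
    norm_num
  · have : CharZero (PadicAlgCl 2) := inferInstance
    exact two_ne_zero

theorem exists_orbX (L : Type) [Field L] [NumberField L] (a b : L) :
    ∃ x : ℕ → L, Function.Injective x ∧ (∀ m, x m ^ 3 + a * x m + b ≠ 0) ∧
      ∀ m, x (m + 1) = (x m ^ 4 - 2 * a * x m ^ 2 - 8 * b * x m + a ^ 2) /
        (4 * (x m ^ 3 + a * x m + b)) := by
  obtain ⟨M, _, _, e, h2, h20⟩ := exists_two L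
  have h2p : 0 < ‖(2 : M)‖ := norm_pos_iff.2 h20
  obtain ⟨n, hn⟩ : ∃ n : ℕ, max (max 1 ‖e a‖) ‖e b‖ < (‖(2 : M)‖⁻¹) ^ n :=
    pow_unbounded_of_one_lt _ ((one_lt_inv₀ h2p).2 h2)
  let x : ℕ → L := fun m => Nat.rec ((2 : L)⁻¹ ^ n) (fun _ z => (z ^ 4 - 2 * a * z ^ 2 -
    8 * b * z + a ^ 2) / (4 * (z ^ 3 + a * z + b))) m
  have hx0 : ‖e (x 0)‖ = (‖(2 : M)‖⁻¹) ^ n := by
    change ‖e ((2 : L)⁻¹ ^ n)‖ = _
    rw [map_pow, map_inv₀, norm_pow, norm_inv, map_ofNat]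
  have hrec : ∀ m, x (m + 1) = (x m ^ 4 - 2 * a * x m ^ 2 - 8 * b * x m + a ^ 2) /
        (4 * (x m ^ 3 + a * x m + b)) := fun m => rfl
  have hstep : ∀ m, ‖e (x 0)‖ ≤ ‖e (x m)‖ ∧ ‖e (x m)‖ < ‖e (x (m + 1))‖ := by
    have h1 : 1 < ‖e (x 0)‖ := by
      rw [hx0]
      exact lt_of_le_of_lt (le_trans (le_max_left _ _) (le_max_left _ _)) hn
    have ha : ‖e a‖ < ‖e (x 0)‖ := by
      rw [hx0]
      exact lt_of_le_of_lt (le_trans (le_max_right _ _) (le_max_left _ _)) hn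
    have hb : ‖e b‖ < ‖e (x 0)‖ := by
      rw [hx0]
      exact lt_of_le_of_lt (le_max_right _ _) hn
    have hst : ∀ m, ‖e (x 0)‖ ≤ ‖e (x m)‖ → ‖e (x m)‖ < ‖e (x (m + 1))‖ := by
      intro m hm
      have h3 := norm_dup h2 h20 (a := e a) (b := e b) (x := e (x m)) (lt_of_lt_of_le h1 hm)
        (lt_of_lt_of_le ha hm) (lt_of_lt_of_le hb hm)
      have h4 : e (x (m + 1)) = ((e (x m)) ^ 4 - 2 * e a * (e (x m)) ^ 2 - 8 * e b * e (x m) +
          (e a) ^ 2) / (4 * ((e (x m)) ^ 3 + e a * e (x m) + e b)) := by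
        rw [hrec]
        simp only [map_div₀, map_add, map_sub, map_mul, map_pow, map_ofNat]
      rwa [h4]
    intro m
    induction m with
    | zero => exact ⟨le_rfl, hst 0 le_rfl⟩
    | succ m ih =>
      have h5 := ih.1.trans ih.2.le
      exact ⟨h5, hst (m + 1) h5⟩
  have hmono : StrictMono fun m => ‖e (x m)‖ := strictMono_nat_of_lt_succ fun m => (hstep m).2
  refine ⟨x, fun m m' h => hmono.injective (by simp only [h]), fun m h0 => ?_, hrec⟩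
  have h6 := (hstep m).2
  rw [hrec, h0, mul_zero, div_zero, map_zero, norm_zero] at h6
  exact absurd h6 (not_lt.2 (norm_nonneg _))

theorem exists_orb (L : Type) [Field L] [NumberField L] (a b : L) :
    ∃ (L' : Type) (_ : Field L') (_ : NumberField L') (_ : Algebra L L') (x y : ℕ → L'),
      Function.Injective x ∧ (∀ m, y m ≠ 0) ∧
      (∀ m, y m ^ 2 = x m ^ 3 + algebraMap L L' a * x m + algebraMap L L' b) ∧
      (∀ m, x (m + 1) = (x m ^ 4 - 2 * algebraMap L L' a * x m ^ 2 -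
        8 * algebraMap L L' b * x m + algebraMap L L' a ^ 2) / (4 * y m ^ 2)) ∧
      ∀ m, y (m + 1) = (x m ^ 6 + 5 * algebraMap L L' a * x m ^ 4 +
        20 * algebraMap L L' b * x m ^ 3 - 5 * algebraMap L L' a ^ 2 * x m ^ 2 -
        4 * algebraMap L L' a * algebraMap L L' b * x m - 8 * algebraMap L L' b ^ 2 -
        algebraMap L L' a ^ 3) / (8 * y m ^ 3) := by
  classical
  obtain ⟨x0, hinj, hcub0, hrec0⟩ := exists_orbX L a b
  obtain ⟨w, hw⟩ := IsAlgClosed.exists_pow_nat_eq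
    (algebraMap L (AlgebraicClosure L) (x0 0 ^ 3 + a * x0 0 + b)) (n := 2) (by norm_num)
  let L' := IntermediateField.adjoin L {w}
  have hwi : IsIntegral L w := (AlgebraicClosure.isAlgebraic L).isAlgebraic w |>.isIntegral
  have hfd : FiniteDimensional L L' := IntermediateField.adjoin.finiteDimensional hwi
  have hchar : CharZero L' := charZero_of_injective_algebraMap (algebraMap L L').injective
  have hfin : FiniteDimensional ℚ L' := FiniteDimensional.trans ℚ L L'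
  have hnf : NumberField L' := ⟨⟩
  refine ⟨L', inferInstance, hnf, inferInstance, ?_⟩
  set a' : L' := algebraMap L L' a with ha'
  set b' : L' := algebraMap L L' b with hb'
  let x : ℕ → L' := fun m => algebraMap L L' (x0 m)
  have hinj' : Function.Injective x := fun m m' h => hinj ((algebraMap L L').injective h)
  have hcub : ∀ m, x m ^ 3 + a' * x m + b' ≠ 0 := by
    intro m
    have h1 : x m ^ 3 + a' * x m + b' = algebraMap L L' (x0 m ^ 3 + a * x0 m + b) := by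
      simp only [map_add, map_mul, map_pow, x, ha', hb']
    rw [h1, Ne, map_eq_zero]
    exact hcub0 m
  have hrec : ∀ m, x (m + 1) = (x m ^ 4 - 2 * a' * x m ^ 2 - 8 * b' * x m + a' ^ 2) /
        (4 * (x m ^ 3 + a' * x m + b')) := by
    intro m
    simp only [x, ha', hb']
    rw [hrec0]
    simp only [map_div₀, map_add, map_sub, map_mul, map_pow, map_ofNat]
  let y0 : L' := ⟨w, IntermediateField.mem_adjoin_simple_self L w⟩
  have hy0 : y0 ^ 2 = x 0 ^ 3 + a' * x 0 + b' := by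
    have h1 : x 0 ^ 3 + a' * x 0 + b' = algebraMap L L' (x0 0 ^ 3 + a * x0 0 + b) := by
      simp only [map_add, map_mul, map_pow, x, ha', hb']
    rw [h1]
    apply Subtype.ext
    exact hw
  let y : ℕ → L' := fun m => Nat.rec y0 (fun m ym => (x m ^ 6 + 5 * a' * x m ^ 4 +
    20 * b' * x m ^ 3 - 5 * a' ^ 2 * x m ^ 2 - 4 * a' * b' * x m - 8 * b' ^ 2 - a' ^ 3) /
      (8 * ym ^ 3)) m
  have hyrec : ∀ m, y (m + 1) = (x m ^ 6 + 5 * a' * x m ^ 4 + 20 * b' * x m ^ 3 -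
      5 * a' ^ 2 * x m ^ 2 - 4 * a' * b' * x m - 8 * b' ^ 2 - a' ^ 3) / (8 * y m ^ 3) := fun m => rfl
  have hy : ∀ m, y m ^ 2 = x m ^ 3 + a' * x m + b' := by
    intro m
    induction m with
    | zero => exact hy0
    | succ m ih =>
      have h1 := hcub m
      have h2 : y m ^ 2 ≠ 0 := by rw [ih]; exact h1
      rw [hyrec, hrec]
      have h3 : (8 * y m ^ 3) ^ 2 = 64 * (x m ^ 3 + a' * x m + b') ^ 3 := by
        have h4 : (8 * y m ^ 3) ^ 2 = 64 * (y m ^ 2) ^ 3 := by ring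
        rw [h4, ih]
      rw [div_pow, h3]
      have key : (x m ^ 6 + 5 * a' * x m ^ 4 + 20 * b' * x m ^ 3 - 5 * a' ^ 2 * x m ^ 2 -
          4 * a' * b' * x m - 8 * b' ^ 2 - a' ^ 3) ^ 2 =
          (x m ^ 4 - 2 * a' * x m ^ 2 - 8 * b' * x m + a' ^ 2) ^ 3 +
          16 * a' * (x m ^ 4 - 2 * a' * x m ^ 2 - 8 * b' * x m + a' ^ 2) *
            (x m ^ 3 + a' * x m + b') ^ 2 + 64 * b' * (x m ^ 3 + a' * x m + b') ^ 3 := by ring
      rw [key]
      generalize x m ^ 3 + a' * x m + b' = w at *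
      generalize x m ^ 4 - 2 * a' * x m ^ 2 - 8 * b' * x m + a' ^ 2 = M at *
      field_simp
      ring
  have hyne : ∀ m, y m ≠ 0 := by
    intro m h0
    apply hcub m
    rw [← hy, h0]
    ring
  exact ⟨x, y, hinj', hyne, hy, fun m => by rw [hrec, hy], hyrec⟩

end Pool.Agent.Q13.LE
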