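import Pool.Agent.Q13.LE.Model
import Pool.Agent.Q13.LE.Orb
import Pool.Agent.Y719.LC.Sing

/-!
Maps from elliptic curves over number fields give infinite sequences of points over number fields.
-/

set_option autoImplicit false

namespace Pool.Agent.Q13.LE

open MvPolynomial Filter Pool.Agent.TH143.DE Pool.Agent.TH143.HE Pool.Agent.TH143.TW
  Pool.Agent.TH143.GE Pool.Agent.Y719.LC

variable {N : ℕ} {R : Type} [CommRing R]

theorem norm_zero' {A : Type} [Field A] {a b : A} {α β : Polynomial A}
    (h : α ^ 2 = β ^ 2 * (Polynomial.X ^ 3 + Polynomial.C a * Polynomial.X + Polynomial.C b)) :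
    α = 0 ∧ β = 0 := by
  set F : Polynomial A := Polynomial.X ^ 3 + Polynomial.C a * Polynomial.X + Polynomial.C b
    with hF
  have hdeg : F.natDegree = 3 := by
    rw [hF]
    compute_degree!
  have hF0 : F ≠ 0 := by
    intro h0
    rw [h0, Polynomial.natDegree_zero] at hdeg
    omega
  have hβ : β = 0 := by
    by_contra hβ
    have h1 := congrArg Polynomial.natDegree h
    rw [Polynomial.natDegree_pow, Polynomial.natDegree_mul (pow_ne_zero _ hβ) hF0,
      Polynomial.natDegree_pow, hdeg] at h1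
    omega
  refine ⟨?_, hβ⟩
  rw [hβ] at h
  have h1 : α ^ 2 = 0 := by rw [h]; ring
  exact pow_eq_zero_iff two_ne_zero |>.1 h1

/-- the zeros of functions on the cubic along a sequence of points -/
theorem fin_zero {A : Type} [Field A] {a b : A} {x y : ℕ → A} (hinj : Function.Injective x)
    (hxy : ∀ m, y m ^ 2 = x m ^ 3 + a * x m + b) {α β : Polynomial A} (h : ¬ (α = 0 ∧ β = 0)) :
    {m | α.eval (x m) + β.eval (x m) * y m = 0}.Finite := by
  set n : Polynomial A := α ^ 2 - β ^ 2 * (Polynomial.X ^ 3 + Polynomial.C a * Polynomial.X +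
    Polynomial.C b) with hn
  have hn0 : n ≠ 0 := fun h0 => h (norm_zero' (sub_eq_zero.1 h0))
  have h2 : {z : A | n.IsRoot z}.Finite := Polynomial.finite_setOfPred_isRoot hn0
  refine (h2.preimage hinj.injOn).subset fun m hm => ?_
  change n.eval (x m) = 0
  have hm' : α.eval (x m) + β.eval (x m) * y m = 0 := hm
  simp only [hn, Polynomial.eval_sub, Polynomial.eval_pow, Polynomial.eval_mul,
    Polynomial.eval_add, Polynomial.eval_X, Polynomial.eval_C]
  rw [← hxy]
  linear_combination (α.eval (x m) - β.eval (x m) * y m) * hm'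

/-- values of the composite -/
theorem onC_val' {A : Type} [Field A] (φ : R →+* A) {a b : A} (P Q : Fin (N + 1) → Polynomial A)
    (G : MvPolynomial (Fin (N + 1)) R) : ∃ α β : Polynomial A,
      (onC φ a b P Q G = 0 ↔ α = 0 ∧ β = 0) ∧
      ∀ x y : A, y ^ 2 = x ^ 3 + a * x + b →
        eval₂ φ (fun j => (P j).eval x + (Q j).eval x * y) G = α.eval x + β.eval x * y := by
  obtain ⟨α, β, h⟩ := onC_degree φ a b P Q G
  refine ⟨α, β, ⟨fun h0 => ?_, fun h0 => ?_⟩, fun x y hxy => ?_⟩
  · rw [h] at h0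
    constructor
    · have := congrArg (fun p => Polynomial.coeff p 0) h0
      simpa using this
    · have := congrArg (fun p => Polynomial.coeff p 1) h0
      simpa [Polynomial.coeff_C] using this
  · rw [h, h0.1, h0.2]
    simp
  · have h1 := onC_eval φ P Q G (RingHom.id A) (x := x) (y := y) hxy
    rw [h, RingHom.id_comp] at h1
    simp only [Polynomial.eval₂_add, Polynomial.eval₂_mul, Polynomial.eval₂_C,
      Polynomial.eval₂_X, Polynomial.coe_eval₂RingHom, Polynomial.eval₂_id] at h1
    exact h1.symm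

theorem poly_mem {B : Subalgebra ℂ (ℕ → ℂ)} {x : ℕ → ℂ} (hx : x ∈ B) (p : Polynomial ℂ) :
    (fun m => p.eval (x m)) ∈ B := by
  have h2 : (fun m => p.eval (x m)) = Polynomial.aeval x p := by
    funext m
    have h3 := Polynomial.aeval_algHom_apply (Pi.evalAlgHom ℂ (fun _ : ℕ => ℂ) m) x p
    rw [Polynomial.coe_aeval_eq_eval] at h3
    exact h3
  rw [h2]
  exact Algebra.adjoin_le (Set.singleton_subset_iff.2 hx)
    (Polynomial.aeval_mem_adjoin_singleton ℂ x (p := p))

/-- **Infinite sequences of points over number fields** on images of elliptic curves. -/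
theorem bad_of_ecur {L : Type} [Field L] [NumberField L] (φ : R →+* L)
    {I I' : Ideal (MvPolynomial (Fin (N + 1)) R)} {a b : L} {P Q : Fin (N + 1) → Polynomial L}
    (h : ECur φ I I' a b P Q) :
    ∃ (A : Type) (_ : Field A) (_ : NumberField A) (_ : Algebra L A), ∀ τ : A →+* ℂ,
      ∃ B : Subalgebra ℂ (ℕ → ℂ), CoefField B ∧ FinGen B ∧ TrLe B 1 ∧
        ∃ z : ℕ → Fin (N + 1) → A, (∀ m, z m ≠ 0) ∧ (∀ j, (fun m => τ (z m j)) ∈ B) ∧
          (∀ m, IsPtP ((algebraMap L A).comp φ) I (z m)) ∧
          (∀ m, ¬ IsPtP ((algebraMap L A).comp φ) I' (z m)) ∧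
          ∀ v : Fin (N + 1) → A, v ≠ 0 → {m | ∀ i j, z m i * v j = z m j * v i}.Finite := by
  classical
  obtain ⟨A, _, _, _, x, y, hinj, hy0, hxy, hx, hy⟩ := exists_orb L a b
  refine ⟨A, inferInstance, inferInstance, inferInstance, fun τ => ?_⟩
  obtain ⟨-, h1, ⟨G', hG', hGh, hne⟩, hnc⟩ := h.map (algebraMap L A)
  set P' : Fin (N + 1) → Polynomial A := fun j => (P j).map (algebraMap L A) with hP'
  set Q' : Fin (N + 1) → Polynomial A := fun j => (Q j).map (algebraMap L A) with hQ'
  set a' : A := algebraMap L A a with ha'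
  set b' : A := algebraMap L A b with hb'
  set ψ := (algebraMap L A).comp φ with hψ
  -- the field of coefficients
  obtain ⟨B, hB, hfg, htr, hxB, hyB⟩ := exists_B (a := τ a') (b := τ b')
    (x := fun m => τ (x m)) (y := fun m => τ (y m))
    (fun m m' hm => hinj (τ.injective hm)) (fun m h0 => hy0 m ((map_eq_zero τ).1 h0))
    (fun m => by simp only [← map_pow, ← map_mul, ← map_add, hxy])
    (fun m => by rw [hx m]; simp only [map_div₀, map_add, map_sub, map_mul, map_pow, map_ofNat])
    (fun m => by rw [hy m]; simp only [map_div₀, map_add, map_sub, map_mul, map_pow, map_ofNat])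
  let w : ℕ → Fin (N + 1) → A := fun m j => (P' j).eval (x m) + (Q' j).eval (x m) * y m
  -- a nonzero coordinate
  obtain ⟨l, hl⟩ : ∃ l, ¬ (P' l = 0 ∧ Q' l = 0) := by
    by_contra hcon
    push Not at hcon
    obtain ⟨i, j, m, n, hij⟩ := hnc
    apply hij
    have h2 : ∀ (j : Fin (N + 1)) (m : Bool × ℕ), (cond m.1 (P' j) (Q' j)).coeff m.2 = 0 := by
      rintro j ⟨m, t⟩
      cases m
      · simp [(hcon j).2]
      · simp [(hcon j).1]
    rw [h2 i m, h2 j m, zero_mul, zero_mul]
  obtain ⟨α, β, h3, h4⟩ := onC_val' ψ (a := a') (b := b') P' Q' G'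
  have h5 := fin_zero hinj hxy (α := α) (β := β) (fun h0 => hne (h3.2 h0))
  have h6 := fin_zero hinj hxy hl
  obtain ⟨s, hs⟩ : ∃ s : ℕ, ∀ m, s ≤ m → (¬ (α.eval (x m) + β.eval (x m) * y m = 0)) ∧
      ¬ ((P' l).eval (x m) + (Q' l).eval (x m) * y m = 0) := by
    have h7 := h5.compl_mem_cofinite
    have h8 := h6.compl_mem_cofinite
    rw [Nat.cofinite_eq_atTop] at h7 h8
    exact eventually_atTop.1 (Filter.Eventually.and h7 h8)
  refine ⟨B, hB, hfg, htr, fun m => w (m + s), fun m h0 => ?_, fun j => ?_, fun m G hG hGf => ?_,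
    fun m hcon => ?_, fun v hv => ?_⟩
  · exact (hs (m + s) (by omega)).2 (congrFun h0 l)
  · have h7 : (fun m => τ (w m j)) ∈ B := by
      have h8 : (fun m => τ (w m j)) = (fun m => ((P' j).map τ).eval (τ (x m))) +
          (fun m => ((Q' j).map τ).eval (τ (x m))) * fun m => τ (y m) := by
        funext m
        simp only [w, Pi.add_apply, Pi.mul_apply, map_add, map_mul, Polynomial.eval_map_apply]
      rw [h8]
      exact B.add_mem (poly_mem hxB _) (B.mul_mem (poly_mem hxB _) hyB)
    exact hB.shift' h7 s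
  · obtain ⟨α', β', h7, h8⟩ := onC_val' ψ (a := a') (b := b') P' Q' G
    have h9 := h7.1 (h1 G hG hGf)
    rw [h8 _ _ (hxy (m + s)), h9.1, h9.2]
    simp
  · apply (hs (m + s) (by omega)).1
    rw [← h4 _ _ (hxy (m + s))]
    exact hcon G' hG' hGh
  · obtain ⟨i, j, hij⟩ : ∃ i j, ¬ (Polynomial.C (v j) * P' i - Polynomial.C (v i) * P' j = 0 ∧
        Polynomial.C (v j) * Q' i - Polynomial.C (v i) * Q' j = 0) := by
      by_contra hcon
      push Not at hcon
      obtain ⟨k, hk⟩ := Function.ne_iff.1 hv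
      exact not_NCt_of (l := k) (c := v) hk (fun i => ⟨sub_eq_zero.1 (hcon i k).1,
        sub_eq_zero.1 (hcon i k).2⟩) hnc
    have h7 := fin_zero hinj hxy hij
    have h8 : {m | (Polynomial.C (v j) * P' i - Polynomial.C (v i) * P' j).eval (x (m + s)) +
        (Polynomial.C (v j) * Q' i - Polynomial.C (v i) * Q' j).eval (x (m + s)) * y (m + s) =
          0}.Finite := h7.preimage (fun m _ m' _ hm => by simpa using hm)
    refine h8.subset fun m hm => ?_
    have h9 := hm i j
    change ((P' i).eval (x (m + s)) + (Q' i).eval (x (m + s)) * y (m + s)) * v j =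
      ((P' j).eval (x (m + s)) + (Q' j).eval (x (m + s)) * y (m + s)) * v i at h9
    change _ = _
    simp only [Polynomial.eval_sub, Polynomial.eval_mul, Polynomial.eval_C]
    linear_combination h9

end Pool.Agent.Q13.LE
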